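import Pool.Agent.Helper35.NCM.Mat

/-!
# Additivity: the class of the object `n` of the category of matrices
-/

open CategoryTheory Limits

namespace Pool.Agent.Helper35.NCM

open Pool.Agent.Helper54.NCM

variable {k : Type} [Field k]

/-- An object of `spl k n`. -/
def so (k : Type) [Field k] {n : ℕ} (X : Option (Fin n)) : (spl k n).Obj := X

/-- The one-point subsets, as objects of `spl k n`. -/
def sj (k : Type) [Field k] {n : ℕ} (j : Fin n) : (spl k n).Obj := so k (some j)

/-- The disjoint union of `n` copies of the unit dg category. -/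
noncomputable def cop (k : Type) [Field k] (n : ℕ) : DGCat k := full (spl k n) (Fin n) (sj k)

/-- The inclusion of `cop k n` in `spl k n`. -/
noncomputable def copIncl (k : Type) [Field k] (n : ℕ) : cop k n ⟶ spl k n :=
  fullIncl (spl k n) (Fin n) (sj k)

/-- An index as an object of `cop k n`. -/
def co (k : Type) [Field k] {n : ℕ} (j : Fin n) : (cop k n).Obj := j

theorem cop_eq_zero {n : ℕ} {X Y : Fin n} {m : ℤ} (f : (cop k n).Hom (co k X) (co k Y) m)
    (h : f.1 X = 0) : f = 0 := by
  apply Subtype.ext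
  funext l
  by_contra h1
  obtain rfl : l = X := (f.2 l h1).1
  exact h1 h

open Classical in
theorem cop_eq_smul {n : ℕ} {X : Fin n} (f : (cop k n).Hom (co k X) (co k X) 0) :
    f = f.1 X • (cop k n).one (co k X) := by
  apply Subtype.ext
  funext l
  show f.1 l = f.1 X * (if l ∈ sset (some X) then 1 else 0)
  by_cases h1 : l = X
  · subst h1
    rw [if_pos (show l ∈ sset (some l) from rfl), mul_one]
  · rw [if_neg (show ¬ l ∈ sset (some X) from h1), mul_zero]
    by_contra h2
    exact h1 (f.2 l h2).1

open Classical in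
/-- The functor out of `cop k n` given by `n` objects. -/
noncomputable def copDesc {n : ℕ} {B : DGCat k} (X : Fin n → B.Obj) : cop k n ⟶ B where
  obj j := X j
  map {i j m} :=
    { toFun := fun f => (f.1 i : k) • oneOf B (X i) (X j) m
      map_add' := fun f g => add_smul (f.1 i) (g.1 i) _
      map_smul' := fun c f => mul_smul c (f.1 i) _ }
  map_one j := by
    show (if j ∈ sset (some j) then (1 : k) else 0) • oneOf B (X j) (X j) 0 = _
    rw [if_pos (show j ∈ sset (some j) from rfl), one_smul, oneOf_self]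
  map_comp {i j l a b c} h g f := by
    show (g.1 i * f.1 i : k) • oneOf B (X i) (X l) c
      = B.comp h ((g.1 j : k) • oneOf B (X j) (X l) a) ((f.1 i : k) • oneOf B (X i) (X j) b)
    by_cases hf : f.1 i = 0
    · rw [hf, mul_zero, zero_smul, zero_smul, map_zero]
    · obtain ⟨-, h1, rfl⟩ := f.2 _ hf
      obtain rfl : i = j := h1
      by_cases hg : g.1 i = 0
      · rw [hg, zero_mul, zero_smul, zero_smul, map_zero]
        rfl
      · obtain ⟨-, h1, rfl⟩ := g.2 _ hg
        obtain rfl : i = l := h1
        obtain rfl : 0 = c := by omega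
        rw [oneOf_self, map_smul, map_smul]
        show _ = (f.1 i : k) • (g.1 i : k) • B.comp h (B.one _) (B.one _)
        rw [B.comp_one, smul_smul, mul_comm]
  map_d {i j a b} h f := by
    show (0 : k) • oneOf B (X i) (X j) b = B.d h ((f.1 i : k) • oneOf B (X i) (X j) a)
    rw [zero_smul, map_smul, d_oneOf, smul_zero]

theorem eq_copDesc {n : ℕ} {B : DGCat k} (G : cop k n ⟶ B) :
    G = copDesc (fun j => DGFunctor.obj G (co k j)) := by
  refine ext_of_map _ _ _ _ _ _ fun i j m f => ?_
  show DGFunctor.map G f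
    = (f.1 i : k) • oneOf B (DGFunctor.obj G (co k i)) (DGFunctor.obj G (co k j)) m
  by_cases hf : f.1 i = 0
  · rw [hf, zero_smul]
    have h1 : f = 0 := cop_eq_zero f hf
    rw [h1]
    exact map_zero _
  · obtain ⟨-, h1, rfl⟩ := f.2 _ hf
    obtain rfl : i = j := h1
    rw [oneOf_self]
    have h2 : DGFunctor.map G f = (f.1 i : k) • DGFunctor.map G ((cop k n).one (co k i)) :=
      (congrArg (DGFunctor.map G) (cop_eq_smul f)).trans (map_smul _ _ _)
    exact h2.trans (congrArg ((f.1 i : k) • ·) (G.map_one (co k i)))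

/-- `cop k n` is the coproduct of `n` copies of the unit. -/
noncomputable def copIsColimit (n : ℕ) :
    IsColimit (Cofan.mk (cop k n) (fun j : Fin n => pt (cop k n) (co k j))) :=
  Cofan.IsColimit.mk _ (fun t => copDesc fun j => DGFunctor.obj (t.inj j) ())
    (fun t j => by
      show pt (cop k n) (co k j) ≫ _ = _
      rw [pt_comp]
      exact (eq_pt _).symm)
    (fun t m hm => by
      rw [eq_copDesc m]
      congr 1
      funext j
      have h := hm j
      have h2 : pt (cop k n) (co k j) ≫ m = t.inj j := h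
      rw [pt_comp] at h2
      rw [← h2]
      rfl)

/-- The indicator function of `j`, as a morphism in `spl k n`. -/
noncomputable def ind {n : ℕ} (j : Fin n) (X Y : Option (Fin n)) (hX : j ∈ sset X)
    (hY : j ∈ sset Y) : (spl k n).Hom X Y 0 :=
  ⟨Pi.single j 1, fun l hl => by
    obtain rfl : l = j := by
      by_contra h
      exact hl (Pi.single_eq_of_ne h _)
    exact ⟨hX, hY, rfl⟩⟩

theorem sum_spl {n : ℕ} {X Y : (spl k n).Obj} {m : ℤ} {ι : Type} (s : Finset ι)
    (f : ι → (spl k n).Hom X Y m) (l : Fin n) : (∑ j ∈ s, f j).1 l = ∑ j ∈ s, (f j).1 l := by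
  classical
  induction s using Finset.induction_on with
  | empty => rfl
  | insert j s hj ih => rw [Finset.sum_insert hj, Finset.sum_insert hj, ← ih]; rfl

/-- The condition on an object of the target in the definition of a Morita equivalence. -/
def Gen {A B : DGCat k} (F : DGFunctor A B) (Y : B.Obj) : Prop :=
  ∃ (m : ℕ) (X : Fin m → A.Obj) (i : ∀ j, B.Hom (F.obj (X j)) Y 0)
      (p : ∀ j, B.Hom Y (F.obj (X j)) 0) (t : B.Hom Y Y (-1)),
      (∀ j, B.d (zero_add 1) (i j) = 0) ∧ (∀ j, B.d (zero_add 1) (p j) = 0) ∧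
      B.one Y = ∑ j, B.comp (add_zero 0) (i j) (p j) + B.d (neg_add_cancel 1) t

theorem gen_obj {A B : DGCat k} (F : DGFunctor A B) (X : A.Obj) : Gen F (F.obj X) := by
  refine ⟨1, fun _ => X, fun _ => B.one _, fun _ => B.one _, 0, fun _ => d_one B _ _,
    fun _ => d_one B _ _, ?_⟩
  rw [map_zero, add_zero]
  show B.one (F.obj X) = ∑ _ : Fin 1, B.comp (add_zero 0) (B.one (F.obj X)) (B.one (F.obj X))
  rw [B.comp_one, Finset.sum_const]
  simp

open Classical in
theorem gen_none (n : ℕ) : Gen (copIncl k n) (so k none) := by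
  refine ⟨n, fun j => j, fun j => ind j (some j) none rfl trivial,
      fun j => ind j none (some j) trivial rfl, 0, fun j => rfl, fun j => rfl, ?_⟩
  rw [map_zero, add_zero]
  apply Subtype.ext
  funext l
  rw [sum_spl]
  show (if l ∈ sset none then (1 : k) else 0)
    = ∑ j, (Pi.single j (1 : k) : Fin n → k) l * (Pi.single j (1 : k) : Fin n → k) l
  rw [if_pos (show l ∈ sset none from trivial), Finset.sum_eq_single l]
  · simp
  · intro j _ hj
    rw [Pi.single_eq_of_ne (Ne.symm hj), mul_zero]
  · simp

theorem isMoritaEquiv_cop (n : ℕ) : IsMoritaEquiv (copIncl k n) := by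
  apply isMoritaEquiv_of_ff _ (fullIncl_ff _ _ _)
  rintro (_ | j)
  · exact gen_none n
  · exact gen_obj (copIncl k n) j

section

variable {C : Type*} [Category* C] [Preadditive C] (U : DGCat k ⥤ C) [PreservesFiniteCoproducts U]
  (hU : ∀ {A B : DGCat k} (F : A ⟶ B), IsMoritaEquiv F → IsIso (U.map F))

include hU

omit [Preadditive C] in
/-- Morphisms out of `U (spl k n)` are determined by their restrictions to the points. -/
theorem spl_hom_ext (n : ℕ) {Z : C} (f g : U.obj (spl k n) ⟶ Z)
    (h : ∀ j : Fin n, U.map (pt (spl k n) (sj k j)) ≫ f = U.map (pt (spl k n) (sj k j)) ≫ g) :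
    f = g := by
  have := hU (copIncl k n) (isMoritaEquiv_cop n)
  rw [← cancel_epi (U.map (copIncl k n))]
  have hc := isColimitOfPreserves U (copIsColimit (k := k) n)
  refine hc.hom_ext fun ⟨j⟩ => ?_
  have h1 : pt (cop k n) (co k j) ≫ copIncl k n = pt (spl k n) (sj k j) :=
    pt_comp _ _
  have h2 := h j
  rw [← h1, U.map_comp, Category.assoc, Category.assoc] at h2
  exact h2

/-- The class of the object `n` of the category of matrices. -/
theorem map_pt_mat (n : ℕ) :
    U.map (pt (mat k) (mo k n)) = n • U.map (pt (mat k) (mo k 1)) := by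
  have := hU _ (isMoritaEquiv_pt_mat (k := k))
  -- the class of `0`
  have h0 : U.map (pt (mat k) (mo k 0)) = 0 := by
    have h1 : pt (spl k 0) (so k none) ≫ (Idx.nat 0).functor = pt (mat k) (mo k 0) := pt_comp _ _
    have h2 : (𝟙 (U.obj (spl k 0))) = 0 := spl_hom_ext U hU 0 _ _ fun j => j.elim0
    rw [← h1, U.map_comp, ← Category.comp_id (U.map (pt (spl k 0) (so k none))), h2]
    simp
  -- the projections
  let π : Fin n → (U.obj (spl k n) ⟶ U.obj (unit k)) := fun j =>
    U.map (Idx.proj n j).functor ≫ inv (U.map (pt (mat k) (mo k 1)))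
  have hπ1 : ∀ j : Fin n, U.map (pt (spl k n) (sj k j)) ≫ π j = 𝟙 _ := by
    intro j
    have h1 : pt (spl k n) (sj k j) ≫ (Idx.proj n j).functor = pt (mat k) (mo k 1) := by
      rw [pt_comp]
      have : (Idx.proj n j).sz (some j) = 1 := if_pos (show j ∈ sset (some j) from rfl)
      show pt (mat k) (mo k ((Idx.proj n j).sz (some j))) = _
      rw [this]
    show _ ≫ _ ≫ _ = _
    rw [← Category.assoc, ← U.map_comp, h1, IsIso.hom_inv_id]
  have hπ0 : ∀ i j : Fin n, i ≠ j → U.map (pt (spl k n) (sj k i)) ≫ π j = 0 := by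
    intro i j hij
    have h1 : pt (spl k n) (sj k i) ≫ (Idx.proj n j).functor = pt (mat k) (mo k 0) := by
      rw [pt_comp]
      have : (Idx.proj n j).sz (some i) = 0 :=
        if_neg (show ¬ j ∈ sset (some i) from fun h : j = i => hij h.symm)
      show pt (mat k) (mo k ((Idx.proj n j).sz (some i))) = _
      rw [this]
    show _ ≫ _ ≫ _ = _
    rw [← Category.assoc, ← U.map_comp, h1, h0, zero_comp]
  have hπn : ∀ j : Fin n, U.map (pt (spl k n) (so k none)) ≫ π j = 𝟙 _ := by
    intro j
    have h1 : pt (spl k n) (so k none) ≫ (Idx.proj n j).functor = pt (mat k) (mo k 1) := by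
      rw [pt_comp]
      have : (Idx.proj n j).sz none = 1 := if_pos (show j ∈ sset none from trivial)
      show pt (mat k) (mo k ((Idx.proj n j).sz none)) = _
      rw [this]
    show _ ≫ _ ≫ _ = _
    rw [← Category.assoc, ← U.map_comp, h1, IsIso.hom_inv_id]
  have hid : 𝟙 (U.obj (spl k n)) = ∑ j, π j ≫ U.map (pt (spl k n) (sj k j)) := by
    refine spl_hom_ext U hU n _ _ fun i => ?_
    rw [Category.comp_id, Preadditive.comp_sum, Finset.sum_eq_single i]
    · rw [← Category.assoc, hπ1, Category.id_comp]
    · intro j _ hj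
      rw [← Category.assoc, hπ0 i j (Ne.symm hj), zero_comp]
    · simp
  have hn : U.map (pt (spl k n) (so k none)) = ∑ j, U.map (pt (spl k n) (sj k j)) := by
    rw [← Category.comp_id (U.map (pt (spl k n) (so k none))), hid, Preadditive.comp_sum]
    refine Finset.sum_congr rfl fun j _ => ?_
    rw [← Category.assoc, hπn, Category.id_comp]
  have h1 : pt (spl k n) (so k none) ≫ (Idx.nat n).functor = pt (mat k) (mo k n) := pt_comp _ _
  have h2 : ∀ j : Fin n, pt (spl k n) (sj k j) ≫ (Idx.nat n).functor = pt (mat k) (mo k 1) :=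
    fun j => pt_comp _ _
  rw [← h1, U.map_comp, hn, Preadditive.sum_comp]
  simp_rw [← U.map_comp, h2]
  simp

end

end Pool.Agent.Helper35.NCM
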