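import Pool.Agent.Helper54.NCM.Defs

/-!
# General facts on dg functors and the weak Morita equivalences `IsMoritaEquiv`
-/

open CategoryTheory

namespace Pool.Agent.Helper35.NCM

open Pool.Agent.Helper54.NCM

variable {k : Type} [Field k]

/-- Two dg functors which agree on objects definitionally and agree on morphisms are equal. -/
theorem ext_of_map {A B : DGCat k} {o : A.Obj → B.Obj}
    {m m' : ∀ {X Y : A.Obj} {n : ℤ}, A.Hom X Y n →ₗ[k] B.Hom (o X) (o Y) n}
    (h1 h2 h3 h1' h2' h3')
    (h : ∀ (X Y : A.Obj) (n : ℤ) (f : A.Hom X Y n), m f = m' f) :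
    (⟨o, m, h1, h2, h3⟩ : DGFunctor A B) = ⟨o, m', h1', h2', h3'⟩ := by
  have : @m = @m' := by
    funext X Y n
    exact LinearMap.ext (h X Y n)
  subst this
  rfl

/-- A fully faithful dg functor for which every object of the target is a homotopy retract of a
finite direct sum of objects in the image is a Morita equivalence. -/
theorem isMoritaEquiv_of_ff {A B : DGCat k} (F : DGFunctor A B)
    (hff : ∀ (X Y : A.Obj) (n : ℤ), Function.Bijective (F.map : A.Hom X Y n →ₗ[k] _))
    (gen : ∀ Y : B.Obj, ∃ (m : ℕ) (X : Fin m → A.Obj) (i : ∀ j, B.Hom (F.obj (X j)) Y 0)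
      (p : ∀ j, B.Hom Y (F.obj (X j)) 0) (t : B.Hom Y Y (-1)),
      (∀ j, B.d (zero_add 1) (i j) = 0) ∧ (∀ j, B.d (zero_add 1) (p j) = 0) ∧
      B.one Y = ∑ j, B.comp (add_zero 0) (i j) (p j) + B.d (neg_add_cancel 1) t) :
    IsMoritaEquiv F where
  inj {X Y n m l} h h' f g _ hg := by
    obtain ⟨f', rfl⟩ := (hff X Y n).2 g
    refine ⟨f', (hff X Y m).1 ?_⟩
    rw [F.map_d, hg]
  surj {X Y n m l} h h' g hg := by
    obtain ⟨f, rfl⟩ := (hff X Y m).2 g
    refine ⟨f, 0, (hff X Y l).1 ?_, by simp⟩
    rw [F.map_d, hg, map_zero]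
  gen := gen

/-- The full dg subcategory given by a family of objects. -/
def full (B : DGCat k) (S : Type) (i : S → B.Obj) : DGCat k where
  Obj := S
  Hom X Y n := B.Hom (i X) (i Y) n
  d h := B.d h
  one X := B.one (i X)
  comp h := B.comp h
  d_d h h' f := B.d_d h h' f
  one_comp f := B.one_comp f
  comp_one f := B.comp_one f
  assoc hab hbc h₁ h₂ x y z := B.assoc hab hbc h₁ h₂ x y z
  leibniz h hm hn hp h₁ h₂ g f := B.leibniz h hm hn hp h₁ h₂ g f

/-- The inclusion of a full dg subcategory. -/
def fullIncl (B : DGCat k) (S : Type) (i : S → B.Obj) : full B S i ⟶ B where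
  obj := i
  map := LinearMap.id
  map_one _ := rfl
  map_comp _ _ _ := rfl
  map_d _ _ := rfl

theorem fullIncl_ff (B : DGCat k) (S : Type) (i : S → B.Obj) (X Y : (full B S i).Obj) (n : ℤ) :
    Function.Bijective ((fullIncl B S i).map : (full B S i).Hom X Y n →ₗ[k] _) :=
  Function.bijective_id

/-- The identity morphism, as a morphism between objects which are known to be equal only
propositionally. -/
def oneCast (B : DGCat k) {X Y : B.Obj} {n : ℤ} (h : X = Y) (h' : 0 = n) : B.Hom X Y n :=
  h ▸ h' ▸ B.one X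

/-- The identity morphism, as a morphism between objects which are known to be equal only
propositionally, and zero otherwise. -/
noncomputable def oneOf (B : DGCat k) (X Y : B.Obj) (n : ℤ) : B.Hom X Y n :=
  open Classical in
  if h : X = Y ∧ 0 = n then oneCast B h.1 h.2 else 0

theorem oneOf_self (B : DGCat k) (X : B.Obj) : oneOf B X X 0 = B.one X := by
  rw [oneOf, dif_pos ⟨rfl, rfl⟩]
  rfl

/-- The differential of an identity vanishes. -/
theorem d_one (B : DGCat k) (X : B.Obj) {m : ℤ} (h : 0 + 1 = m) : B.d h (B.one X) = 0 := by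
  have h1 := B.leibniz (add_zero 0) h h h (by omega) (by omega) (B.one X) (B.one X)
  obtain rfl : 1 = m := by omega
  rw [B.one_comp] at h1
  have h2 : B.comp (add_zero 1) (B.d h (B.one X)) (B.one X) = B.d h (B.one X) := B.comp_one _
  have h3 : B.comp (zero_add 1) (B.one X) (B.d h (B.one X)) = B.d h (B.one X) := B.one_comp _
  rw [h2, h3] at h1
  simpa using h1

theorem d_oneOf (B : DGCat k) (X Y : B.Obj) {n m : ℤ} (h : n + 1 = m) :
    B.d h (oneOf B X Y n) = 0 := by
  unfold oneOf
  split_ifs with h0
  · obtain ⟨rfl, rfl⟩ := h0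
    exact d_one B X h
  · exact map_zero _

/-- The dg functor from the unit dg category given by an object. -/
noncomputable def pt (B : DGCat k) (X : B.Obj) : unit k ⟶ B where
  obj _ := X
  map {_ _ n} := (LinearMap.toSpanSingleton k _ (oneOf B X X n)).comp (Submodule.subtype _)
  map_one _ := by
    show (1 : k) • oneOf B X X 0 = B.one X
    rw [oneOf_self, one_smul]
  map_comp {_ _ _ m n p} h g f := by
    show (g.1 * f.1) • oneOf B X X p
      = B.comp h (g.1 • oneOf B X X m) (f.1 • oneOf B X X n)
    by_cases hm : m = 0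
    · by_cases hn : n = 0
      · subst hm hn
        obtain rfl : p = 0 := by omega
        have h2 : B.comp h (B.one X) (B.one X) = B.one X := B.comp_one _
        rw [oneOf_self, map_smul, map_smul]
        show _ = f.1 • g.1 • B.comp h (B.one X) (B.one X)
        rw [h2, smul_smul, mul_comm]
      · rw [f.2 hn]; simp
    · rw [g.2 hm]; simp
  map_d {_ _ n m} h f := by
    show (0 : k) • oneOf B X X m = B.d h (f.1 • oneOf B X X n)
    rw [zero_smul, map_smul, d_oneOf, smul_zero]

theorem pt_comp {B B' : DGCat k} (X : B.Obj) (F : B ⟶ B') :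
    pt B X ≫ F = pt B' (DGFunctor.obj F X) := by
  refine ext_of_map _ _ _ _ _ _ fun _ _ n f => ?_
  show DGFunctor.map F (f.1 • oneOf B X X n) = f.1 • oneOf B' (DGFunctor.obj F X) _ n
  rw [map_smul]
  by_cases hn : n = 0
  · subst hn
    rw [oneOf_self, oneOf_self, F.map_one]
  · rw [f.2 hn, zero_smul, zero_smul]

/-- Every dg functor from the unit dg category is given by an object. -/
theorem eq_pt {B : DGCat k} (F : unit k ⟶ B) : F = pt B (DGFunctor.obj F ()) := by
  refine ext_of_map _ _ _ _ _ _ fun X Y n f => ?_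
  show DGFunctor.map F f = f.1 • oneOf B (DGFunctor.obj F ()) (DGFunctor.obj F ()) n
  by_cases hn : n = 0
  · subst hn
    rw [oneOf_self]
    have h1 : f = HSMul.hSMul (γ := (unit k).Hom X X 0) (f.1 : k) ((unit k).one X) := by
      apply Subtype.ext
      show f.1 = f.1 * 1
      rw [mul_one]
    have h2 : DGFunctor.map F f = f.1 • DGFunctor.map F ((unit k).one X) :=
      (congrArg (DGFunctor.map F) h1).trans (map_smul _ _ _)
    exact h2.trans (congrArg (f.1 • ·) (F.map_one ()))
  · have h0 : f = 0 := Subtype.ext (f.2 hn)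
    have h1 : DGFunctor.map F f = 0 := by rw [h0]; exact map_zero _
    rw [h1, f.2 hn, zero_smul]
    rfl

end Pool.Agent.Helper35.NCM
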