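import Pool.Agent.Helper35.NCM.Uni

/-!
# Module M: homotopy idempotents paired with finite-dimensional representations
-/

open CategoryTheory Limits

namespace Pool.Agent.Helper35.NCM

open Pool.Agent.Helper54.NCM Pool.Agent.Helper35.Sch

noncomputable section

variable {k : Type} [Field k]

/-- An idempotent matrix of rank `r` factors through `k ^ r`. -/
theorem exists_factor {m : ℕ} (q : Matrix (Fin m) (Fin m) k) (hq : q * q = q) :
    ∃ (i : Matrix (Fin m) (Fin q.rank) k) (p : Matrix (Fin q.rank) (Fin m) k),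
      p * i = 1 ∧ i * p = q := by
  classical
  let V := LinearMap.range q.mulVecLin
  let b : Module.Basis (Fin q.rank) k V := Module.finBasisOfFinrankEq k V rfl
  let i : (Fin q.rank → k) →ₗ[k] (Fin m → k) := V.subtype ∘ₗ b.equivFun.symm.toLinearMap
  let p : (Fin m → k) →ₗ[k] (Fin q.rank → k) := b.equivFun.toLinearMap ∘ₗ q.mulVecLin.rangeRestrict
  have hV : ∀ v : V, q.mulVecLin.rangeRestrict (v : Fin m → k) = v := by
    rintro ⟨v, w, rfl⟩
    apply Subtype.ext
    show q.mulVec (q.mulVec w) = q.mulVec w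
    rw [Matrix.mulVec_mulVec, hq]
  have hpi : p ∘ₗ i = LinearMap.id := by
    refine LinearMap.ext fun x => ?_
    show b.equivFun (q.mulVecLin.rangeRestrict ((b.equivFun.symm x : V) : Fin m → k)) = x
    rw [hV, LinearEquiv.apply_symm_apply]
  have hip : i ∘ₗ p = q.mulVecLin := by
    refine LinearMap.ext fun x => ?_
    show ((b.equivFun.symm (b.equivFun (q.mulVecLin.rangeRestrict x)) : V) : Fin m → k) = _
    rw [LinearEquiv.symm_apply_apply]
    rfl
  refine ⟨LinearMap.toMatrix' i, LinearMap.toMatrix' p, ?_, ?_⟩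
  · rw [← LinearMap.toMatrix'_comp, hpi, LinearMap.toMatrix'_id]
  · rw [← LinearMap.toMatrix'_comp, hip, ← Matrix.toLin'_apply', LinearMap.toMatrix'_toLin']

/-- The object of a one-object dg category. -/
def ao (A : DGAlg k) : A.toDGCat.Obj := ()

namespace HI

variable {A : DGAlg k} (I : HI A)

theorem dW_one : I.dW 0 1 = 0 := by
  ext1
  · show I.D * (1 : Module.End k (TP A)) - ((0 : ℤ).negOnePow : ℤ) • ((1 : Module.End k (TP A)) * I.D) = 0
    rw [mul_one, one_mul]
    simp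
  · rfl

/-- The full subcategory of `uni` on the object `true`. -/
def star : DGCat k := full I.uni Unit fun _ => true

/-- The inclusion of `star` in `uni`. -/
def starIncl : I.star ⟶ I.uni := fullIncl I.uni Unit fun _ => true

/-- An object of `uni`. -/
def uo (b : Bool) : I.uni.Obj := b

theorem gen_false : Gen I.starIncl (I.uo false) := by
  refine ⟨1, fun _ => (), fun _ => ⟨(0, 1), one_mem_G, fun h => absurd rfl h⟩,
    fun _ => ⟨(0, 1), one_mem_G, fun h => absurd rfl h⟩,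
    ⟨(0, I.Hop), I.Hop_mem, fun h => absurd rfl h⟩, fun _ => ?_, fun _ => ?_, ?_⟩
  · apply Subtype.ext
    show ((0 : k), I.dW 0 1) = 0
    rw [I.dW_one]
    rfl
  · apply Subtype.ext
    show ((0 : k), I.dW 0 1) = 0
    rw [I.dW_one]
    rfl
  · rw [Fin.sum_univ_one]
    apply Subtype.ext
    show ((0 : k), (1 : TW A))
      = I.cmp true (0, 1) (0, 1) + ((0 : k), I.dW (-1) I.Hop)
    rw [I.dW_Hop, cmp_apply]
    show _ = ((0 : k) * 0, (0 : k) • (1 : TW A) + (0 : k) • (1 : TW A) + 1 * I.u * 1) + _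
    ext1
    · simp
    · simp

theorem isMoritaEquiv_starIncl : IsMoritaEquiv I.starIncl := by
  apply isMoritaEquiv_of_ff _ (fullIncl_ff _ _ _)
  rintro (_ | _)
  · exact I.gen_false
  · exact gen_obj I.starIncl ()

/-- The map underlying the functor `Φ`. -/
def φ : k × (TW A) →ₗ[k] A.carrier where
  toFun z := z.1 • 1 + (z.2.1 (I.g 1)).1 0
  map_add' z w := by
    simp only [Prod.fst_add, Prod.snd_add, LinearMap.add_apply, Pi.add_apply, add_smul]
    abel
  map_smul' c z := by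
    simp only [Prod.smul_fst, Prod.smul_snd, LinearMap.smul_apply, Pi.smul_apply, smul_eq_mul,
      mul_smul, RingHom.id_apply, smul_add]

theorem φ_mem {n : ℤ} {z : k × (TW A)} (hz : z ∈ I.homS true true n) : I.φ z ∈ A.deg n := by
  obtain ⟨⟨h1, h2, h3, h4⟩, h⟩ := hz
  refine Submodule.add_mem _ ?_ ?_
  · by_cases h0 : z.1 = 0
    · rw [h0, zero_smul]
      exact Submodule.zero_mem _
    · obtain ⟨-, -, rfl⟩ := h h0
      exact Submodule.smul_mem _ _ A.one_mem
  · have := (h2 0 _ (I.PDeg_g A.one_mem) 0).1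
    rwa [zero_add] at this

theorem φ_cmp {m n : ℤ} {z w : k × (TW A)} (hz : z ∈ I.homS true true m)
    (_ : w ∈ I.homS true true n) : I.φ (I.cmp true z w) = I.φ z * I.φ w := by
  obtain ⟨⟨h1, h2, h3, h4⟩, h⟩ := hz
  have key : z.2.1 (I.g ((w.2.1 (I.g 1)).1 0)) = rm A ((w.2.1 (I.g 1)).1 0) (z.2.1 (I.g 1)) := by
    rw [← h1 0 _ _ (I.PDeg_g A.one_mem), ← I.g_rm, one_mul]
  have key2 : (z.2.1 (I.g ((w.2.1 (I.g 1)).1 0))).1 0
      = (z.2.1 (I.g 1)).1 0 * (w.2.1 (I.g 1)).1 0 := by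
    rw [key]; rfl
  show (z.1 * w.1) • 1 + (z.1 • (w.2.1 (I.g 1)).1 0 + w.1 • (z.2.1 (I.g 1)).1 0
    + (z.2.1 (I.g ((w.2.1 (I.g 1)).1 0))).1 0)
    = (z.1 • 1 + (z.2.1 (I.g 1)).1 0) * (w.1 • 1 + (w.2.1 (I.g 1)).1 0)
  rw [key2, add_mul, mul_add, mul_add, smul_mul_smul_comm, one_mul, smul_mul_assoc, one_mul,
    mul_smul_comm, mul_one]
  abel

theorem φ_d {n : ℤ} {z : k × (TW A)} (hz : z ∈ I.homS true true n) :
    I.φ (I.dS n z) = A.d (I.φ z) := by
  have h1 : I.D (I.g 1) = 0 := by rw [I.D_g, d_one_alg, map_zero]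
  show (0 : k) • 1 + ((I.D (z.2.1 (I.g 1))).1 0 - (n.negOnePow : ℤ) • (z.2.1 (I.D (I.g 1))).1 0)
    = A.d (z.1 • 1 + (z.2.1 (I.g 1)).1 0)
  rw [h1, map_zero, map_add, map_smul, d_one_alg]
  simp
  rfl

/-- The dg functor from `star` to `A`. -/
def Φ : I.star ⟶ A.toDGCat where
  obj _ := ao A
  map {X Y n} :=
    { toFun := fun z => ⟨I.φ z.1, I.φ_mem z.2⟩
      map_add' := fun z w => Subtype.ext (map_add I.φ z.1 w.1)
      map_smul' := fun c z => Subtype.ext (map_smul I.φ c z.1) }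
  map_one _ := Subtype.ext (by
    show I.φ (1, 0) = 1
    simp [φ])
  map_comp _ g f := Subtype.ext (I.φ_cmp g.2 f.2)
  map_d _ f := Subtype.ext (I.φ_d f.2)

/-- A representation, as a dg functor. -/
def _root_.Pool.Agent.Helper35.NCM.Rep.functor (R : Rep A) : A.toDGCat ⟶ mat k where
  obj _ := mo k R.m
  map {X Y n} :=
    { toFun := fun a => ⟨R.θ a.1, fun hn => R.hdeg n a.1 hn a.2⟩
      map_add' := fun a b => Subtype.ext (map_add R.θ a.1 b.1)
      map_smul' := fun c a => Subtype.ext (map_smul R.θ c a.1) }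
  map_one _ := Subtype.ext (map_one R.θ)
  map_comp _ g f := Subtype.ext (map_mul R.θ g.1 f.1)
  map_d _ f := Subtype.ext (R.hd f.1)

section
variable (R : Rep A) (i : Matrix (Fin R.m) (Fin (R.θ I.e).rank) k)
  (p : Matrix (Fin (R.θ I.e).rank) (Fin R.m) k)

/-- The sizes of the matrices. -/
def szΨ : Bool → ℕ
  | true => R.m
  | false => (R.θ I.e).rank

/-- The left factor. -/
def lΨ : (X : Bool) → Matrix (Fin (I.szΨ R X)) (Fin (R.θ I.e).rank) k
  | true => i
  | false => (1 : Matrix (Fin (R.θ I.e).rank) (Fin (R.θ I.e).rank) k)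

/-- The right factor. -/
def rΨ : (X : Bool) → Matrix (Fin (R.θ I.e).rank) (Fin (I.szΨ R X)) k
  | true => p
  | false => (1 : Matrix (Fin (R.θ I.e).rank) (Fin (R.θ I.e).rank) k)

/-- The matrix which is multiplied by the scalar. -/
def eΨ : (X Y : Bool) → Matrix (Fin (I.szΨ R Y)) (Fin (I.szΨ R X)) k
  | true, true => (1 : Matrix (Fin R.m) (Fin R.m) k)
  | true, false => 0
  | false, true => 0
  | false, false => 0

/-- The map underlying the functor `Ψ`. -/
def ψ (X Y : Bool) : k × (TW A) →ₗ[k] Matrix (Fin (I.szΨ R Y)) (Fin (I.szΨ R X)) k where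
  toFun z := z.1 • I.eΨ R X Y + z.2.2 • (I.lΨ R i Y * I.rΨ R p X)
  map_add' z w := by
    simp only [Prod.fst_add, Prod.snd_add, add_smul]
    abel
  map_smul' c z := by
    simp only [Prod.smul_fst, Prod.smul_snd, smul_eq_mul, mul_smul, RingHom.id_apply, smul_add]

theorem ψ_zero {X Y : Bool} {n : ℤ} {z : k × (TW A)} (hz : z ∈ I.homS X Y n) (hn : n ≠ 0) :
    I.ψ R i p X Y z = 0 := by
  obtain ⟨⟨h1, h2, h3, h4⟩, h⟩ := hz
  have h0 : z.1 = 0 := by
    by_contra h0
    exact hn (h h0).2.2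
  show z.1 • I.eΨ R X Y + z.2.2 • (I.lΨ R i Y * I.rΨ R p X) = 0
  rw [h0, h3 hn, zero_smul, zero_smul, add_zero]

theorem ψ_one (hpi : p * i = 1) (X : Bool) : I.ψ R i p X X (oneS X) = 1 := by
  cases X
  · show (0 : k) • (0 : Matrix (Fin (R.θ I.e).rank) (Fin (R.θ I.e).rank) k)
      + (1 : k) • ((1 : Matrix (Fin (R.θ I.e).rank) (Fin (R.θ I.e).rank) k) * 1) = 1
    rw [zero_smul, one_smul, mul_one, zero_add]
  · show (1 : k) • (1 : Matrix (Fin R.m) (Fin R.m) k) + (0 : k) • (i * p) = 1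
    rw [zero_smul, one_smul, add_zero]

theorem r_l (hpi : p * i = 1) (Y : Bool) : I.rΨ R p Y * I.lΨ R i Y = 1 := by
  cases Y
  · exact Matrix.one_mul (1 : Matrix (Fin (R.θ I.e).rank) (Fin (R.θ I.e).rank) k)
  · exact hpi

theorem ψ_cmp (hpi : p * i = 1) {X Y Z : Bool} {m n : ℤ} {g f : k × (TW A)}
    (hg : g ∈ I.homS Y Z m) (hf : f ∈ I.homS X Y n) :
    I.ψ R i p X Z (I.cmp Y g f) = I.ψ R i p Y Z g * I.ψ R i p X Y f := by
  obtain ⟨a, w⟩ := g
  obtain ⟨b, w'⟩ := f
  obtain ⟨hw, ha⟩ := hg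
  obtain ⟨hw', hb⟩ := hf
  have hmid : (I.mid Y).2 = 1 := by cases Y <;> rfl
  show (a * b) • I.eΨ R X Z
      + (a * w'.2 + b * w.2 + w.2 * (I.mid Y).2 * w'.2) • (I.lΨ R i Z * I.rΨ R p X)
    = (a • I.eΨ R Y Z + w.2 • (I.lΨ R i Z * I.rΨ R p Y))
      * (b • I.eΨ R X Y + w'.2 • (I.lΨ R i Y * I.rΨ R p X))
  rw [hmid, mul_one]
  have e1 : (a • I.eΨ R Y Z) * (b • I.eΨ R X Y) = (a * b) • I.eΨ R X Z := by
    by_cases h0 : a = 0
    · rw [h0]; simp
    · by_cases h0' : b = 0
      · rw [h0']; simp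
      · obtain ⟨rfl, rfl, -⟩ := ha h0
        obtain ⟨rfl, -, -⟩ := hb h0'
        rw [Matrix.smul_mul, Matrix.mul_smul, smul_smul]
        exact congrArg _ (Matrix.one_mul _)
  have e2 : (a • I.eΨ R Y Z) * (w'.2 • (I.lΨ R i Y * I.rΨ R p X))
      = (a * w'.2) • (I.lΨ R i Z * I.rΨ R p X) := by
    by_cases h0 : a = 0
    · rw [h0]; simp
    · obtain ⟨rfl, rfl, -⟩ := ha h0
      rw [Matrix.smul_mul, Matrix.mul_smul, smul_smul]
      exact congrArg _ (Matrix.one_mul _)
  have e3 : (w.2 • (I.lΨ R i Z * I.rΨ R p Y)) * (b • I.eΨ R X Y)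
      = (b * w.2) • (I.lΨ R i Z * I.rΨ R p X) := by
    by_cases h0 : b = 0
    · rw [h0]; simp
    · obtain ⟨rfl, rfl, -⟩ := hb h0
      rw [Matrix.smul_mul, Matrix.mul_smul, smul_smul, mul_comm]
      exact congrArg _ (Matrix.mul_one _)
  have e4 : (w.2 • (I.lΨ R i Z * I.rΨ R p Y)) * (w'.2 • (I.lΨ R i Y * I.rΨ R p X))
      = (w.2 * w'.2) • (I.lΨ R i Z * I.rΨ R p X) := by
    rw [Matrix.smul_mul, Matrix.mul_smul, smul_smul, Matrix.mul_assoc, ← Matrix.mul_assoc (I.rΨ R p Y),
      I.r_l R i p hpi, Matrix.one_mul]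
  rw [Matrix.add_mul, Matrix.mul_add, Matrix.mul_add, e1, e2, e3, e4, add_smul, add_smul]
  abel

/-- The dg functor from `uni` to matrices. -/
def Ψ (hpi : p * i = 1) : I.uni ⟶ mat k where
  obj X := mo k (I.szΨ R X)
  map {X Y n} :=
    { toFun := fun z => ⟨I.ψ R i p X Y z.1, fun hn => I.ψ_zero R i p z.2 hn⟩
      map_add' := fun z w => Subtype.ext (map_add (I.ψ R i p X Y) z.1 w.1)
      map_smul' := fun c z => Subtype.ext (map_smul (I.ψ R i p X Y) c z.1) }
  map_one X := Subtype.ext (I.ψ_one R i p hpi X)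
  map_comp _ g f := Subtype.ext (I.ψ_cmp R i p hpi g.2 f.2)
  map_d {X Y n m} _ f := Subtype.ext (by
    show (0 : k) • I.eΨ R X Y + (0 : k) • (I.lΨ R i Y * I.rΨ R p X) = 0
    rw [zero_smul, zero_smul, add_zero])

theorem Φ_comp (hpi : p * i = 1) (hip : i * p = R.θ I.e) :
    I.Φ ≫ R.functor = I.starIncl ≫ I.Ψ R i p hpi := by
  refine ext_of_map _ _ _ _ _ _ fun X Y n f => ?_
  apply Subtype.ext
  obtain ⟨⟨a, w⟩, ⟨h1, h2, h3, h4⟩, h⟩ := f
  show R.θ (a • 1 + (w.1 (I.g 1)).1 0) = a • 1 + w.2 • (i * p)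
  have h5 : PRep I.e R 1 (I.g 1) := by
    apply I.PRep_g
    rw [mul_one, one_smul]
  have h6 := (h4 R 1 _ h5 0).1
  rw [map_add, map_smul, map_one, h6, hip, mul_one]

end

section
variable (A : DGAlg k) {e h : A.carrier} (he : e ∈ A.deg 0) (hh : h ∈ A.deg (-1))
  (de : A.d e = 0) (dh : A.d h = e * e - e)

include he de in
theorem d_e_mul (x : A.carrier) : A.d (e * x) = e * A.d x := by
  rw [A.leibniz x he, de]
  simp

include hh dh in
theorem d_h_mul (x : A.carrier) : A.d (h * x) = (e * e - e) * x - h * A.d x := by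
  rw [A.leibniz x hh, dh]
  simp [sub_eq_add_neg]

/-- Every homotopy idempotent can be improved so as to have a coherence. -/
def ofHomotopy : HI A where
  e := e
  h := h - e * (e * h - h * e) + (e * h - h * e) * e
  r := 3 * (e * (h * h) + h * h * e) - h * h - 4 * (h * (e * h))
  de := d_e_mul A he de
  dh x := by
    have hm : h - e * (e * h - h * e) + (e * h - h * e) * e ∈ A.deg (-1) := by
      have h1 : e * h - h * e ∈ A.deg (-1) := by
        refine Submodule.sub_mem _ ?_ ?_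
        · have := A.mul_mem he hh
          rwa [zero_add] at this
        · have := A.mul_mem hh he
          rwa [add_zero] at this
      refine Submodule.add_mem _ (Submodule.sub_mem _ hh ?_) ?_
      · have := A.mul_mem he h1
        rwa [zero_add] at this
      · have := A.mul_mem h1 he
        rwa [add_zero] at this
    have hd : A.d (h - e * (e * h - h * e) + (e * h - h * e) * e) = e * e - e := by
      have e1 := d_e_mul A he de
      have e2 := d_h_mul A hh dh
      have : h - e * (e * h - h * e) + (e * h - h * e) * e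
          = h - (e * (e * h) - e * (h * e)) + (e * (h * e) - h * (e * e)) := by noncomm_ring
      rw [this]
      simp only [map_add, map_sub, e1, e2, dh, de]
      noncomm_ring
    rw [A.leibniz x hm, hd]
    simp [sub_eq_add_neg]
  dr x := by
    have e1 := d_e_mul A he de
    have e2 := d_h_mul A hh dh
    have e3 : ∀ y, A.d (3 * y) = 3 * A.d y := fun y => by
      rw [show (3 : A.carrier) * y = y + y + y by noncomm_ring, map_add, map_add]
      noncomm_ring
    have e4 : ∀ y, A.d (4 * y) = 4 * A.d y := fun y => by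
      rw [show (4 : A.carrier) * y = y + y + y + y by noncomm_ring, map_add, map_add, map_add]
      noncomm_ring
    have : (3 * (e * (h * h) + h * h * e) - h * h - 4 * (h * (e * h))) * x
        = 3 * (e * (h * (h * x)) + h * (h * (e * x))) - h * (h * x) - 4 * (h * (e * (h * x))) := by
      noncomm_ring
    rw [this]
    simp only [map_add, map_sub, e1, e2, e3, e4]
    noncomm_ring
  he := he
  hh := by
    have h1 : e * h - h * e ∈ A.deg (-1) := by
      refine Submodule.sub_mem _ ?_ ?_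
      · have := A.mul_mem he hh
        rwa [zero_add] at this
      · have := A.mul_mem hh he
        rwa [add_zero] at this
    refine Submodule.add_mem _ (Submodule.sub_mem _ hh ?_) ?_
    · have := A.mul_mem he h1
      rwa [zero_add] at this
    · have := A.mul_mem h1 he
      rwa [add_zero] at this
  hr := by
    have h2 : h * h ∈ A.deg (-2) := A.mul_mem hh hh
    have hs : ∀ {y : A.carrier}, y ∈ A.deg (-2) → 3 * y ∈ A.deg (-2) := fun {y} hy => by
      rw [show (3 : A.carrier) * y = y + y + y by noncomm_ring]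
      exact Submodule.add_mem _ (Submodule.add_mem _ hy hy) hy
    have hs' : ∀ {y : A.carrier}, y ∈ A.deg (-2) → 4 * y ∈ A.deg (-2) := fun {y} hy => by
      rw [show (4 : A.carrier) * y = y + y + y + y by noncomm_ring]
      exact Submodule.add_mem _ (Submodule.add_mem _ (Submodule.add_mem _ hy hy) hy) hy
    refine Submodule.sub_mem _ (Submodule.sub_mem _ (hs (Submodule.add_mem _ ?_ ?_)) h2) (hs' ?_)
    · have := A.mul_mem he h2
      rwa [zero_add] at this
    · have := A.mul_mem h2 he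
      rwa [add_zero] at this
    · have := A.mul_mem hh (A.mul_mem he hh)
      exact this

end

end HI

section

variable {C : Type*} [Category* C] [Preadditive C] (U : DGCat k ⥤ C) [PreservesFiniteCoproducts U]
  (hU : ∀ {A B : DGCat k} (F : A ⟶ B), IsMoritaEquiv F → IsIso (U.map F))

/-- The class of a homotopy idempotent. -/
def HI.cls {A : DGAlg k} (I : HI A) : U.obj (unit k) ⟶ U.obj A.toDGCat :=
  haveI := hU I.starIncl I.isMoritaEquiv_starIncl
  U.map (pt I.uni (I.uo false)) ≫ inv (U.map I.starIncl) ≫ U.map I.Φ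

/-- The functional given by a representation. -/
def Rep.fnl {A : DGAlg k} (R : Rep A) : U.obj A.toDGCat ⟶ U.obj (unit k) :=
  haveI := hU _ (isMoritaEquiv_pt_mat (k := k))
  U.map R.functor ≫ inv (U.map (pt (mat k) (mo k 1)))

theorem cls_fnl {A : DGAlg k} (I : HI A) (R : Rep A) :
    I.cls U hU ≫ R.fnl U hU = (R.θ I.e).rank • 𝟙 (U.obj (unit k)) := by
  have := hU I.starIncl I.isMoritaEquiv_starIncl
  have := hU _ (isMoritaEquiv_pt_mat (k := k))
  obtain ⟨i, p, hpi, hip⟩ := exists_factor (R.θ I.e) (I.θ_e R)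
  have h1 : pt I.uni (I.uo false) ≫ I.Ψ R i p hpi = pt (mat k) (mo k (R.θ I.e).rank) :=
    pt_comp _ _
  have h2 : inv (U.map I.starIncl) ≫ U.map I.Φ ≫ U.map R.functor = U.map (I.Ψ R i p hpi) := by
    rw [← U.map_comp, I.Φ_comp R i p hpi hip, U.map_comp, IsIso.inv_hom_id_assoc]
  unfold HI.cls Rep.fnl
  simp only [Category.assoc]
  rw [reassoc_of% h2, ← Category.assoc, ← U.map_comp, h1, map_pt_mat U hU, Preadditive.nsmul_comp,
    IsIso.hom_inv_id]

end

/-- **Module M.** Homotopy idempotents of a dg algebra and finite-dimensional representations are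
paired by every additive invariant, the pairing being the rank. -/
theorem exists_pairing_maps (A : DGAlg k) (n : ℕ)
    (e h : Fin n → A.carrier) (he : ∀ l, e l ∈ A.deg 0) (hh : ∀ l, h l ∈ A.deg (-1))
    (de : ∀ l, A.d (e l) = 0) (dh : ∀ l, A.d (h l) = e l * e l - e l)
    (m : Fin n → ℕ) (θ : ∀ j, A.carrier →ₐ[k] Matrix (Fin (m j)) (Fin (m j)) k)
    (hθ : ∀ j (i : ℤ) (a : A.carrier), i ≠ 0 → a ∈ A.deg i → θ j a = 0)
    (hθd : ∀ j (a : A.carrier), θ j (A.d a) = 0)
    {C : Type*} [Category* C] [Preadditive C] (U : DGCat k ⥤ C) [PreservesFiniteCoproducts U]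
    (hU : ∀ {A B : DGCat k} (F : A ⟶ B), IsMoritaEquiv F → IsIso (U.map F)) :
    ∃ (ι : Fin n → (U.obj (unit k) ⟶ U.obj A.toDGCat))
      (π : Fin n → (U.obj A.toDGCat ⟶ U.obj (unit k))),
      ∀ l j, ι l ≫ π j = ((θ j (e l)).rank : ℕ) • 𝟙 (U.obj (unit k)) :=
  ⟨fun l => (HI.ofHomotopy A (he l) (hh l) (de l) (dh l)).cls U hU,
    fun j => Rep.fnl U hU ⟨m j, θ j, hθ j, hθd j⟩,
    fun l j => cls_fnl U hU (HI.ofHomotopy A (he l) (hh l) (de l) (dh l))
      ⟨m j, θ j, hθ j, hθd j⟩⟩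

end

end Pool.Agent.Helper35.NCM
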