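import Pool.Agent.Helper35.NCM.Basic

/-!
# The dg category of matrices, and additivity
-/

open CategoryTheory Limits

namespace Pool.Agent.Helper35.NCM

open Pool.Agent.Helper54.NCM

variable {k : Type} [Field k]

/-- The dg category of matrices over `k`, in degree zero: the objects are the natural numbers and
the morphisms `a ⟶ b` are the `b × a` matrices. -/
def mat (k : Type) [Field k] : DGCat k where
  Obj := ℕ
  Hom a b n := ({ carrier := {M : Matrix (Fin b) (Fin a) k | n ≠ 0 → M = 0}
                  add_mem' := fun ha hb h => by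
                    show _ = _; rw [ha h, hb h, add_zero]
                  zero_mem' := fun _ => rfl
                  smul_mem' := fun c x hx h => by
                    show _ = _; rw [hx h, smul_zero] } : Submodule k (Matrix (Fin b) (Fin a) k))
  d _ := 0
  one a := ⟨1, fun h => absurd rfl h⟩
  comp {_ _ _ m n p} h := LinearMap.mk₂ k (fun g f => ⟨g.1 * f.1, by
      intro hp
      by_cases hm : m = 0
      · have hn : n ≠ 0 := by omega
        rw [f.2 hn, Matrix.mul_zero]
      · rw [g.2 hm, Matrix.zero_mul]⟩)
      (fun a b c => Subtype.ext (Matrix.add_mul a.1 b.1 c.1))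
      (fun r a b => Subtype.ext (Matrix.smul_mul r a.1 b.1))
      (fun a b c => Subtype.ext (Matrix.mul_add a.1 b.1 c.1))
      (fun r a b => Subtype.ext (Matrix.mul_smul a.1 r b.1))
  d_d _ _ _ := rfl
  one_comp f := Subtype.ext (Matrix.one_mul f.1)
  comp_one f := Subtype.ext (Matrix.mul_one f.1)
  assoc _ _ _ _ x y z := Subtype.ext (Matrix.mul_assoc x.1 y.1 z.1)
  leibniz _ _ _ _ _ _ g f := by simp; rfl

/-- A natural number as an object of `mat k`. -/
def mo (k : Type) [Field k] (n : ℕ) : (mat k).Obj := n

/-- A matrix as a morphism of degree `0`. -/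
def matHom {a b : ℕ} (M : Matrix (Fin b) (Fin a) k) : (mat k).Hom (mo k a) (mo k b) 0 :=
  ⟨M, fun h => absurd rfl h⟩

/-- The subset of `Fin n` belonging to an object of `spl`. -/
def sset {n : ℕ} : Option (Fin n) → Set (Fin n)
  | some j => {j}
  | none => Set.univ

open Classical in
/-- The dg category (in degree zero) with objects the `n` one-element subsets of `Fin n` and the
whole set, with morphisms the functions with support in the intersection of two subsets. -/
noncomputable def spl (k : Type) [Field k] (n : ℕ) : DGCat k where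
  Obj := Option (Fin n)
  Hom X Y i := ({ carrier := {f : Fin n → k | ∀ l, f l ≠ 0 → l ∈ sset X ∧ l ∈ sset Y ∧ i = 0}
                  add_mem' := by
                    intro a b ha hb l h
                    by_cases h0 : a l = 0
                    · refine hb l fun h1 => h ?_
                      simp [h0, h1]
                    · exact ha l h0
                  zero_mem' := fun l h => absurd rfl h
                  smul_mem' := fun c x hx l h => hx l fun h1 => h (by simp [h1]) } :
                    Submodule k (Fin n → k))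
  d _ := 0
  one X := ⟨fun l => if l ∈ sset X then 1 else 0, fun l h => by
    have : l ∈ sset X := by
      by_contra h1
      exact h (if_neg h1)
    exact ⟨this, this, rfl⟩⟩
  comp {_ _ _ m n p} h := LinearMap.mk₂ k (fun g f => ⟨g.1 * f.1, fun l hl => by
      have h1 := left_ne_zero_of_mul hl
      have h2 := right_ne_zero_of_mul hl
      have h3 := g.2 l h1
      have h4 := f.2 l h2
      exact ⟨h4.1, h3.2.1, by omega⟩⟩)
      (fun a b c => Subtype.ext (add_mul a.1 b.1 c.1))
      (fun r a b => Subtype.ext (smul_mul_assoc r a.1 b.1))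
      (fun a b c => Subtype.ext (mul_add a.1 b.1 c.1))
      (fun r a b => Subtype.ext (mul_smul_comm r a.1 b.1))
  d_d _ _ _ := rfl
  one_comp {X Y i} f := Subtype.ext (by
    funext l
    show (if l ∈ sset Y then (1 : k) else 0) * f.1 l = f.1 l
    by_cases h : f.1 l = 0
    · rw [h, mul_zero]
    · rw [if_pos (f.2 l h).2.1, one_mul])
  comp_one {X Y i} f := Subtype.ext (by
    funext l
    show f.1 l * (if l ∈ sset X then (1 : k) else 0) = f.1 l
    by_cases h : f.1 l = 0
    · rw [h, zero_mul]
    · rw [if_pos (f.2 l h).1, mul_one])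
  assoc _ _ _ _ x y z := Subtype.ext (mul_assoc x.1 y.1 z.1)
  leibniz _ _ _ _ _ _ g f := by simp; rfl

/-- A way to view the objects of `spl k n` as index sets `Fin (sz X)`, after intersecting with a
fixed subset `S`. -/
structure Idx (n : ℕ) where
  S : Set (Fin n)
  sz : Option (Fin n) → ℕ
  emb : ∀ X, Fin (sz X) → Fin n
  inj : ∀ X, Function.Injective (emb X)
  rng : ∀ X l, l ∈ Set.range (emb X) ↔ l ∈ S ∧ l ∈ sset X

open Classical in
theorem Idx.aux_one {n : ℕ} (I : Idx n) (X : Option (Fin n)) :
    (Matrix.of fun a b => if I.emb X a = I.emb X b then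
      (if I.emb X b ∈ sset X then (1 : k) else 0) else 0) = 1 := by
  ext a b
  have h1 : I.emb X b ∈ sset X := ((I.rng X _).1 ⟨b, rfl⟩).2
  rw [Matrix.of_apply, if_pos h1, Matrix.one_apply]
  by_cases h : a = b
  · rw [if_pos h, if_pos (by rw [h])]
  · rw [if_neg h, if_neg fun h2 => h (I.inj X h2)]

open Classical in
/-- The dg functor to matrices given by an `Idx`. -/
noncomputable def Idx.functor {n : ℕ} (I : Idx n) : spl k n ⟶ mat k where
  obj X := mo k (I.sz X)
  map {X Y i} :=
    { toFun := fun f => ⟨Matrix.of fun a b => if I.emb Y a = I.emb X b then f.1 (I.emb X b) else 0,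
        fun hi => by
          ext a b
          by_cases h : f.1 (I.emb X b) = 0
          · simp [h]
          · exact absurd (f.2 _ h).2.2 hi⟩
      map_add' := fun f g => Subtype.ext (by
        ext a b
        show (if _ then f.1 _ + g.1 _ else 0) = (if _ then f.1 _ else 0) + (if _ then g.1 _ else 0)
        split_ifs <;> simp)
      map_smul' := fun c f => Subtype.ext (by
        ext a b
        show (if _ then c * f.1 _ else 0) = c * (if _ then f.1 _ else 0)
        split_ifs <;> simp) }
  map_one X := Subtype.ext (I.aux_one X)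
  map_comp {X Y Z i j p} h g f := Subtype.ext (by
    ext a c
    show (if I.emb Z a = I.emb X c then g.1 (I.emb X c) * f.1 (I.emb X c) else 0)
      = ∑ b, (if I.emb Z a = I.emb Y b then g.1 (I.emb Y b) else 0)
          * (if I.emb Y b = I.emb X c then f.1 (I.emb X c) else 0)
    by_cases hc : ∃ b, I.emb Y b = I.emb X c
    · obtain ⟨b, hb⟩ := hc
      rw [Finset.sum_eq_single b]
      · rw [hb, if_pos rfl]
        split_ifs <;> simp
      · intro b' _ hb'
        rw [if_neg (fun h2 : I.emb Y b' = I.emb X c => hb' (I.inj Y (h2.trans hb.symm))), mul_zero]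
      · simp
    · rw [Finset.sum_eq_zero]
      · split_ifs with h1
        · by_cases h2 : f.1 (I.emb X c) = 0
          · rw [h2, mul_zero]
          · exfalso
            apply hc
            exact (I.rng Y _).2 ⟨((I.rng X _).1 ⟨c, rfl⟩).1, (f.2 _ h2).2.1⟩
        · rfl
      · intro b _
        rw [if_neg (fun h2 : I.emb Y b = I.emb X c => hc ⟨b, h2⟩), mul_zero])
  map_d h f := Subtype.ext (by
    ext a b
    show (if _ then (0 : k) else 0) = 0
    simp)

open Classical in
/-- Projection to the coordinate `j`. -/
noncomputable def Idx.proj (n : ℕ) (j : Fin n) : Idx n where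
  S := {j}
  sz X := if j ∈ sset X then 1 else 0
  emb _ _ := j
  inj X a b _ := by
    have ha := a.2
    have hb := b.2
    apply Fin.ext
    split_ifs at ha hb <;> omega
  rng X l := by
    constructor
    · rintro ⟨a, rfl⟩
      refine ⟨rfl, ?_⟩
      by_contra h
      have ha := a.2
      split_ifs at ha with h2
      · exact h h2
      · omega
    · rintro ⟨rfl, h⟩
      exact ⟨⟨0, by rw [if_pos h]; exact one_pos⟩, rfl⟩

/-- The natural indexing. -/
def Idx.nat (n : ℕ) : Idx n where
  S := Set.univ
  sz
    | some _ => 1
    | none => n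
  emb
    | some j => fun _ => j
    | none => id
  inj
    | some j => fun a b _ => Subsingleton.elim (α := Fin 1) a b
    | none => fun _ _ h => h
  rng
    | some j => fun l => by simp [sset, eq_comm]
    | none => fun l => by simp [sset]

theorem sum_matHom {a b : ℕ} {ι : Type} (s : Finset ι) (M : ι → Matrix (Fin b) (Fin a) k) :
    ∑ j ∈ s, matHom (M j) = matHom (∑ j ∈ s, M j) := by
  classical
  induction s using Finset.induction_on with
  | empty => rfl
  | insert j s hj ih => rw [Finset.sum_insert hj, Finset.sum_insert hj, ih]; rfl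

theorem sum_col_row (Y : ℕ) :
    ∑ j : Fin Y, (Matrix.of fun (a : Fin Y) (_ : Fin 1) => if a = j then (1 : k) else 0)
        * (Matrix.of fun (_ : Fin 1) (b : Fin Y) => if b = j then (1 : k) else 0) = 1 := by
  ext a b
  rw [Matrix.sum_apply, Matrix.one_apply]
  simp only [Matrix.mul_apply, Matrix.of_apply, Finset.univ_unique, Finset.sum_singleton]
  rw [Finset.sum_eq_single a]
  · simp [eq_comm]
  · intro j _ hj
    rw [if_neg (Ne.symm hj), zero_mul]
  · simp

theorem gen_mat (Y : ℕ) : ∃ (m : ℕ) (_ : Fin m → Unit)
    (i : ∀ _ : Fin m, (mat k).Hom (mo k 1) (mo k Y) 0)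
    (p : ∀ _ : Fin m, (mat k).Hom (mo k Y) (mo k 1) 0) (t : (mat k).Hom (mo k Y) (mo k Y) (-1)),
    (∀ j, (mat k).d (zero_add 1) (i j) = 0) ∧ (∀ j, (mat k).d (zero_add 1) (p j) = 0) ∧
    (mat k).one (mo k Y) = ∑ j, (mat k).comp (add_zero 0) (i j) (p j)
      + (mat k).d (neg_add_cancel 1) t := by
  refine ⟨Y, fun _ => (), fun j => matHom (Matrix.of fun a _ => if a = j then (1 : k) else 0),
      fun j => matHom (Matrix.of fun _ b => if b = j then (1 : k) else 0), 0,
      fun j => rfl, fun j => rfl, ?_⟩
  rw [map_zero, add_zero]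
  refine (congrArg matHom (sum_col_row Y).symm).trans ?_
  rw [← sum_matHom]
  rfl

/-- The object `1` of the category of matrices gives a Morita equivalence. -/
theorem isMoritaEquiv_pt_mat : IsMoritaEquiv (pt (mat k) (mo k 1)) := by
  apply isMoritaEquiv_of_ff
  · intro X Y n
    constructor
    · intro f g hfg
      have h1 : f.1 • oneOf (mat k) (mo k 1) (mo k 1) n = g.1 • oneOf (mat k) (mo k 1) (mo k 1) n :=
        hfg
      apply Subtype.ext
      by_cases hn : n = 0
      · subst hn
        rw [oneOf_self] at h1
        have h2 := congrFun (congrFun (congrArg Subtype.val h1) (0 : Fin 1)) (0 : Fin 1)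
        have h3 : f.1 * 1 = g.1 * 1 := h2
        rwa [mul_one, mul_one] at h3
      · rw [f.2 hn, g.2 hn]
    · intro M
      by_cases hn : n = 0
      · subst hn
        refine ⟨⟨M.1 (0 : Fin 1) (0 : Fin 1), fun h => absurd rfl h⟩, ?_⟩
        show M.1 (0 : Fin 1) (0 : Fin 1) • oneOf (mat k) (mo k 1) (mo k 1) 0 = M
        rw [oneOf_self]
        apply Subtype.ext
        funext a b
        have ha : a = (0 : Fin 1) := Subsingleton.elim (α := Fin 1) _ _
        have hb : b = (0 : Fin 1) := Subsingleton.elim (α := Fin 1) _ _
        subst ha hb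
        exact mul_one _
      · refine ⟨0, ?_⟩
        rw [map_zero]
        exact Subtype.ext (M.2 hn).symm
  · intro Y
    exact gen_mat Y

end Pool.Agent.Helper35.NCM
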