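import Pool.Agent.Helper35.NCM.Add
import Pool.Agent.Helper35.Sch.Split

/-!
# A two-object dg category splitting a homotopy idempotent
-/

open CategoryTheory Limits

namespace Pool.Agent.Helper35.NCM

open Pool.Agent.Helper54.NCM Pool.Agent.Helper35.Sch

variable {k : Type} [Field k]

/-- A homotopy idempotent in a dg algebra, with one coherence. -/
structure HI (A : DGAlg k) extends HIdem (k := k) A.d where
  he : e ∈ A.deg 0
  hh : h ∈ A.deg (-1)
  hr : r ∈ A.deg (-2)

/-- A finite-dimensional representation of a dg algebra, in degree zero. -/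
structure Rep (A : DGAlg k) where
  m : ℕ
  θ : A.carrier →ₐ[k] Matrix (Fin m) (Fin m) k
  hdeg : ∀ (i : ℤ) (a : A.carrier), i ≠ 0 → a ∈ A.deg i → θ a = 0
  hd : ∀ a : A.carrier, θ (A.d a) = 0

/-- The underlying module of the telescope. -/
abbrev TP (A : DGAlg k) := HIdem.P A.carrier

/-- Right multiplication on the telescope. -/
def rm (A : DGAlg k) (x : A.carrier) (y : TP A) : (TP A) := (fun i => y.1 i * x, fun i => y.2 i * x)

theorem rm_sub (A : DGAlg k) (x : A.carrier) (y z : TP A) :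
    rm A x (y - z) = rm A x y - rm A x z := by
  ext j <;> simp [rm, sub_mul]

theorem rm_zsmul (A : DGAlg k) (x : A.carrier) (c : ℤ) (y : TP A) :
    rm A x (c • y) = c • rm A x y := by
  ext j <;> simp [rm, mul_assoc]

/-- Homogeneous elements of the telescope. -/
def PDeg (A : DGAlg k) (n : ℤ) (y : TP A) : Prop :=
  ∀ i, y.1 i ∈ A.deg n ∧ y.2 i ∈ A.deg (n - 1)

/-- The elements of the telescope which become `c • (e, 0)` in a representation. -/
def PRep {A : DGAlg k} (e : A.carrier) (R : Rep A) (c : k) (y : TP A) : Prop :=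
  ∀ i, R.θ (y.1 i) = c • R.θ e ∧ R.θ (y.2 i) = 0

/-- The ring of endomorphisms of the telescope, with a scalar attached. -/
abbrev TW (A : DGAlg k) := Module.End k (TP A) × k

/-- The admissible endomorphisms (with scalar) of degree `n`. -/
def G {A : DGAlg k} (e : A.carrier) (n : ℤ) : Submodule k (TW A) where
  carrier := {w | (∀ i x y, PDeg A i y → w.1 (rm A x y) = rm A x (w.1 y)) ∧
    (∀ i y, PDeg A i y → PDeg A (i + n) (w.1 y)) ∧ (n ≠ 0 → w.2 = 0) ∧
    ∀ (R : Rep A) (c : k) (y : TP A), PRep e R c y → PRep e R (w.2 * c) (w.1 y)}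
  add_mem' := by
    rintro w w' ⟨h1, h2, h3, h4⟩ ⟨h1', h2', h3', h4'⟩
    refine ⟨fun i x y hy => ?_, fun i y hy j => ?_, fun hn => ?_, fun R c y hy j => ?_⟩
    · simp only [Prod.fst_add, LinearMap.add_apply, h1 i x y hy, h1' i x y hy]
      ext j <;> simp [rm, add_mul]
    · exact ⟨Submodule.add_mem _ (h2 i y hy j).1 (h2' i y hy j).1,
        Submodule.add_mem _ (h2 i y hy j).2 (h2' i y hy j).2⟩
    · simp [h3 hn, h3' hn]
    · constructor
      · have a1 := (h4 R c y hy j).1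
        have a2 := (h4' R c y hy j).1
        simp only [Prod.fst_add, LinearMap.add_apply, Pi.add_apply, map_add, Prod.snd_add, add_mul,
          add_smul, a1, a2]
      · have a1 := (h4 R c y hy j).2
        have a2 := (h4' R c y hy j).2
        simp only [Prod.fst_add, LinearMap.add_apply, Prod.snd_add, Pi.add_apply, map_add, a1, a2,
          add_zero]
  zero_mem' := by
    refine ⟨fun i x y hy => ?_, fun i y hy j => ?_, fun hn => rfl, fun R c y hy j => ?_⟩
    · ext j <;> simp [rm]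
    · exact ⟨Submodule.zero_mem _, Submodule.zero_mem _⟩
    · simp
  smul_mem' := by
    rintro a w ⟨h1, h2, h3, h4⟩
    refine ⟨fun i x y hy => ?_, fun i y hy j => ?_, fun hn => ?_, fun R c y hy j => ?_⟩
    · simp only [Prod.smul_fst, LinearMap.smul_apply, h1 i x y hy]
      ext j <;> simp [rm]
    · exact ⟨Submodule.smul_mem _ _ (h2 i y hy j).1, Submodule.smul_mem _ _ (h2 i y hy j).2⟩
    · simp [h3 hn]
    · constructor
      · have a1 := (h4 R c y hy j).1
        simp only [Prod.smul_fst, LinearMap.smul_apply, Pi.smul_apply, map_smul, Prod.smul_snd, a1,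
          smul_smul, smul_eq_mul, mul_assoc]
      · have a1 := (h4 R c y hy j).2
        simp only [Prod.smul_fst, LinearMap.smul_apply, Prod.smul_snd, Pi.smul_apply, map_smul, a1,
          smul_zero]

section
variable {A : DGAlg k} {e : A.carrier}

theorem one_mem_G : (1 : TW A) ∈ G e 0 := by
  refine ⟨fun i x y _ => rfl, fun i y hy => ?_, fun h => absurd rfl h, fun R c y hy => ?_⟩
  · rw [add_zero]; exact hy
  · rw [show (1 : TW A).2 * c = c from one_mul c]; exact hy

theorem mul_mem_G {m n p : ℤ} (hp : m + n = p) {w w' : (TW A)} (hw : w ∈ G e m) (hw' : w' ∈ G e n) :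
    w * w' ∈ G e p := by
  obtain ⟨h1, h2, h3, h4⟩ := hw
  obtain ⟨h1', h2', h3', h4'⟩ := hw'
  refine ⟨fun i x y hy => ?_, fun i y hy => ?_, fun hn => ?_, fun R c y hy => ?_⟩
  · simp only [Prod.fst_mul, Module.End.mul_apply, h1' i x y hy, h1 _ x _ (h2' i y hy)]
  · have := h2 _ _ (h2' i y hy)
    rw [show i + p = i + n + m by omega]
    exact this
  · rw [Prod.snd_mul]
    by_cases hm : m = 0
    · have : n ≠ 0 := by omega
      rw [h3' this, mul_zero]
    · rw [h3 hm, zero_mul]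
  · have := h4 R _ _ (h4' R c y hy)
    rw [Prod.snd_mul, mul_assoc]
    exact this

theorem d_one_alg (A : DGAlg k) : A.d 1 = 0 := by
  have h := A.leibniz (1 : A.carrier) A.one_mem
  simpa using h

end

namespace HI

variable {A : DGAlg k} (I : HI A)

theorem θ_h (R : Rep A) : R.θ I.h = 0 := R.hdeg _ _ (by norm_num) I.hh

theorem θ_r (R : Rep A) : R.θ I.r = 0 := R.hdeg _ _ (by norm_num) I.hr

theorem θ_e (R : Rep A) : R.θ I.e * R.θ I.e = R.θ I.e := by
  have h1 := I.dh 1
  rw [d_one_alg, mul_zero, sub_zero, mul_one, mul_one] at h1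
  have h2 := R.hd I.h
  rw [h1, map_sub, map_mul, sub_eq_zero] at h2
  exact h2

/-- The homotopy idempotent on the telescope (with the scalar `1`). -/
def u : (TW A) := (I.g ∘ₗ HIdem.f, 1)

/-- The homotopy (with the scalar `0`). -/
def Hop : (TW A) := (I.H, 0)

theorem g_rm (x y : A.carrier) : I.g (x * y) = rm A y (I.g x) := by
  ext j <;> simp [HIdem.g, rm, mul_assoc]

theorem PDeg_g {n : ℤ} {x : A.carrier} (hx : x ∈ A.deg n) : PDeg A n (I.g x) := fun j => by
  constructor
  · have := A.mul_mem I.he hx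
    rwa [zero_add] at this
  · have := A.mul_mem I.hh hx
    rw [show n - 1 = -1 + n by ring]
    exact Submodule.neg_mem _ this

theorem PRep_g (R : Rep A) {c : k} {x : A.carrier} (hx : R.θ (I.e * x) = c • R.θ I.e) :
    PRep I.e R c (I.g x) := fun j => by
  constructor
  · exact hx
  · show R.θ (-(I.h * x)) = 0
    rw [map_neg, map_mul, I.θ_h, zero_mul, neg_zero]

theorem u_mem : I.u ∈ G I.e 0 := by
  refine ⟨fun i x y _ => ?_, fun i y hy => ?_, fun h => absurd rfl h, fun R c y hy => ?_⟩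
  · exact I.g_rm (y.1 0) x
  · rw [add_zero]
    exact I.PDeg_g (hy 0).1
  · rw [show (I.u).2 * c = c from one_mul c]
    refine I.PRep_g R ?_
    show R.θ (I.e * y.1 0) = _
    rw [map_mul, (hy 0).1, mul_smul_comm, I.θ_e]

theorem Hop_mem : I.Hop ∈ G I.e (-1) := by
  refine ⟨fun i x y _ => ?_, fun i y hy j => ⟨?_, ?_⟩, fun h => rfl, fun R c y hy j => ⟨?_, ?_⟩⟩
  · show I.H (rm A x y) = rm A x (I.H y)
    ext j
    · simp [HIdem.H, rm, ← Finset.sum_mul, mul_assoc, add_mul, sub_mul]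
    · simp [HIdem.H, rm, ← Finset.sum_mul, mul_assoc, add_mul]
  · show -(I.h * ∑ j ∈ Finset.range (j + 1), y.1 (j + 1)) + y.2 j
      - I.e * ∑ j ∈ Finset.range (j + 1), y.2 j ∈ _
    refine Submodule.sub_mem _ (Submodule.add_mem _ (Submodule.neg_mem _ ?_) ?_) ?_
    · rw [show i + -1 = -1 + i by ring]
      exact A.mul_mem I.hh (Submodule.sum_mem _ fun l _ => (hy _).1)
    · exact (hy j).2
    · rw [show i + -1 = 0 + (i - 1) by ring]
      exact A.mul_mem I.he (Submodule.sum_mem _ fun l _ => (hy _).2)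
  · show I.r * (∑ j ∈ Finset.range (j + 2), y.1 (j + 1))
      + I.h * ∑ j ∈ Finset.range (j + 2), y.2 j ∈ _
    refine Submodule.add_mem _ ?_ ?_
    · rw [show i + -1 - 1 = -2 + i by ring]
      exact A.mul_mem I.hr (Submodule.sum_mem _ fun l _ => (hy _).1)
    · rw [show i + -1 - 1 = -1 + (i - 1) by ring]
      exact A.mul_mem I.hh (Submodule.sum_mem _ fun l _ => (hy _).2)
  · show R.θ (-(I.h * ∑ j ∈ Finset.range (j + 1), y.1 (j + 1)) + y.2 j
      - I.e * ∑ j ∈ Finset.range (j + 1), y.2 j) = (0 * c) • _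
    rw [map_sub, map_add, map_neg, map_mul, map_mul, I.θ_h, map_sum, map_sum,
      Finset.sum_eq_zero (fun l _ => (hy l).2), (hy j).2]
    simp
  · show R.θ (I.r * (∑ j ∈ Finset.range (j + 2), y.1 (j + 1))
      + I.h * ∑ j ∈ Finset.range (j + 2), y.2 j) = 0
    rw [map_add, map_mul, map_mul, I.θ_h, I.θ_r]
    simp

theorem PDeg_D {n : ℤ} {y : (TP A)} (hy : PDeg A n y) : PDeg A (n + 1) (I.D y) := fun j => by
  constructor
  · exact A.d_mem (hy j).1
  · rw [add_sub_cancel_right]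
    refine Submodule.sub_mem _ (Submodule.sub_mem _ (hy j).1 ?_) ?_
    · have := A.mul_mem I.he (hy (j + 1)).1
      rwa [zero_add] at this
    · have := A.d_mem (hy j).2
      rwa [sub_add_cancel] at this

theorem PRep_D (R : Rep A) {c : k} {y : (TP A)} (hy : PRep I.e R c y) : PRep I.e R 0 (I.D y) := by
  intro j
  constructor
  · show R.θ (A.d (y.1 j)) = _
    rw [R.hd, zero_smul]
  · show R.θ (y.1 j - I.e * y.1 (j + 1) - A.d (y.2 j)) = 0
    rw [map_sub, map_sub, map_mul, R.hd, (hy j).1, (hy (j + 1)).1, mul_smul_comm, I.θ_e]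
    simp

theorem D_rm {n : ℤ} {y : (TP A)} (hy : PDeg A n y) (x : A.carrier) :
    I.D (rm A x y) = rm A x (I.D y) + (n.negOnePow : ℤ) • rm A (A.d x) y := by
  ext j
  · show A.d (y.1 j * x) = A.d (y.1 j) * x + (n.negOnePow : ℤ) • (y.1 j * A.d x)
    exact A.leibniz x (hy j).1
  · show y.1 j * x - I.e * (y.1 (j + 1) * x) - A.d (y.2 j * x)
      = (y.1 j - I.e * y.1 (j + 1) - A.d (y.2 j)) * x + (n.negOnePow : ℤ) • (y.2 j * A.d x)
    rw [A.leibniz x (hy j).2, Int.negOnePow_sub, Int.negOnePow_one]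
    simp only [sub_mul, mul_assoc, mul_neg, mul_one, Units.val_neg, neg_smul]
    abel

/-- The differential on endomorphisms of the telescope. -/
def dW (n : ℤ) : (TW A) →ₗ[k] (TW A) where
  toFun w := (I.D * w.1 - (n.negOnePow : ℤ) • (w.1 * I.D), 0)
  map_add' w w' := by
    simp only [Prod.fst_add, mul_add, add_mul, smul_add]
    ext1
    · simp only [Prod.fst_add]; abel
    · simp
  map_smul' c w := by
    ext1
    · simp only [Prod.smul_fst, mul_smul_comm, smul_mul_assoc, RingHom.id_apply, smul_sub]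
      rw [smul_comm]
    · simp

theorem dW_mem {n m : ℤ} (h : n + 1 = m) {w : (TW A)} (hw : w ∈ G I.e n) : I.dW n w ∈ G I.e m := by
  subst h
  obtain ⟨h1, h2, h3, h4⟩ := hw
  refine ⟨fun i x y hy => ?_, fun i y hy j => ?_, fun h => rfl, fun R c y hy j => ?_⟩
  · show I.D (w.1 (rm A x y)) - (n.negOnePow : ℤ) • w.1 (I.D (rm A x y))
      = rm A x (I.D (w.1 y) - (n.negOnePow : ℤ) • w.1 (I.D y))
    rw [h1 i x y hy, I.D_rm (h2 i y hy), I.D_rm hy, map_add, h1 _ x _ (I.PDeg_D hy), map_zsmul,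
      h1 i _ y hy, Int.negOnePow_add, rm_sub, rm_zsmul, smul_add, smul_smul, Units.val_mul,
      mul_comm (i.negOnePow : ℤ)]
    abel
  · constructor
    · refine Submodule.sub_mem _ ?_ (zsmul_mem ?_ _)
      · have := (I.PDeg_D (h2 i y hy) j).1
        rwa [add_assoc] at this
      · have := (h2 _ _ (I.PDeg_D hy) j).1
        rwa [show i + 1 + n = i + (n + 1) by ring] at this
    · refine Submodule.sub_mem _ ?_ (zsmul_mem ?_ _)
      · have := (I.PDeg_D (h2 i y hy) j).2
        rwa [add_assoc] at this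
      · have := (h2 _ _ (I.PDeg_D hy) j).2
        rwa [show i + 1 + n = i + (n + 1) by ring] at this
  · have a1 := I.PRep_D R (h4 R c y hy) j
    have a2 := h4 R 0 _ (I.PRep_D R hy) j
    rw [mul_zero] at a2
    constructor
    · show R.θ ((I.D (w.1 y)).1 j - (n.negOnePow : ℤ) • (w.1 (I.D y)).1 j) = (0 * c) • _
      rw [map_sub, map_zsmul, a1.1, a2.1]
      simp
    · show R.θ ((I.D (w.1 y)).2 j - (n.negOnePow : ℤ) • (w.1 (I.D y)).2 j) = 0
      rw [map_sub, map_zsmul, a1.2, a2.2]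
      simp

theorem D_mul_D : (I.D * I.D : Module.End k (TP A)) = 0 :=
  LinearMap.ext fun y => I.D_D A.d_d y

theorem dW_dW {n m : ℤ} (h : n + 1 = m) (w : TW A) : I.dW m (I.dW n w) = 0 := by
  subst h
  have hD := I.D_mul_D
  ext1
  · show I.D * (I.D * w.1 - (n.negOnePow : ℤ) • (w.1 * I.D))
      - ((n + 1).negOnePow : ℤ) • ((I.D * w.1 - (n.negOnePow : ℤ) • (w.1 * I.D)) * I.D) = 0
    rw [mul_sub, sub_mul, ← mul_assoc, hD, zero_mul, mul_smul_comm, smul_mul_assoc,
      mul_assoc w.1, hD, mul_zero, Int.negOnePow_succ]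
    simp [mul_assoc]
  · rfl

theorem D_u : I.D * I.u.1 = I.u.1 * I.D := by
  refine LinearMap.ext fun y => ?_
  show I.D (I.g (y.1 0)) = I.g (HIdem.f (I.D y))
  rw [I.D_g, I.f_D]
  rfl

/-- The Leibniz rule in `W`. -/
theorem dW_mul {m n p : ℤ} (hp : m + n = p) (w c w' : TW A) (hc : I.D * c.1 = c.1 * I.D) :
    I.dW p (w * c * w') = I.dW m w * c * w' + (m.negOnePow : ℤ) • (w * c * I.dW n w') := by
  subst hp
  ext1
  · show I.D * (w.1 * c.1 * w'.1) - ((m + n).negOnePow : ℤ) • (w.1 * c.1 * w'.1 * I.D)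
      = (I.D * w.1 - (m.negOnePow : ℤ) • (w.1 * I.D)) * c.1 * w'.1
        + (m.negOnePow : ℤ) • (w.1 * c.1 * (I.D * w'.1 - (n.negOnePow : ℤ) • (w'.1 * I.D)))
    have h1 : w.1 * c.1 * (I.D * w'.1) = w.1 * I.D * c.1 * w'.1 := by
      rw [← mul_assoc, mul_assoc w.1 c.1, ← hc, ← mul_assoc]
    rw [mul_sub, h1, Int.negOnePow_add, Units.val_mul, sub_mul, sub_mul, smul_sub, mul_smul_comm,
      smul_smul]
    simp only [mul_assoc, smul_mul_assoc]
    abel
  · show (0 : k) = 0 * c.2 * w'.2 + (m.negOnePow : ℤ) • (w.2 * c.2 * 0)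
    simp

theorem dW_Hop : I.dW (-1) I.Hop = 1 - I.u := by
  ext1
  · refine LinearMap.ext fun y => ?_
    have := I.D_H y
    show I.D (I.H y) - ((-1 : ℤ).negOnePow : ℤ) • I.H (I.D y) = y - I.g (HIdem.f y)
    rw [← this]
    simp
  · show (0 : k) = 1 - 1
    simp

/-- The middle factor in the composition at an object of `uni`. -/
def mid : Bool → (TW A)
  | true => I.u
  | false => 1

theorem mid_mem (b : Bool) : I.mid b ∈ G I.e 0 := by
  cases b
  · exact one_mem_G
  · exact I.u_mem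

theorem D_mid (b : Bool) : I.D * (I.mid b).1 = (I.mid b).1 * I.D := by
  cases b
  · show I.D * (1 : Module.End k (TP A)) = (1 : Module.End k (TP A)) * I.D
    rw [mul_one, one_mul]
  · exact I.D_u

/-- The composition in `uni`. -/
def cmp (Y : Bool) : k × (TW A) →ₗ[k] k × (TW A) →ₗ[k] k × (TW A) :=
  LinearMap.mk₂ k (fun g f => (g.1 * f.1, g.1 • f.2 + f.1 • g.2 + g.2 * I.mid Y * f.2))
    (fun a b c => by
      ext1
      · simp [add_mul]
      · simp only [Prod.fst_add, Prod.snd_add, add_smul, smul_add, add_mul]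
        abel)
    (fun r a b => by
      ext1
      · simp [mul_assoc]
      · simp only [Prod.smul_fst, Prod.smul_snd, smul_eq_mul, smul_add, smul_mul_assoc, mul_smul]
        rw [smul_comm r b.1])
    (fun a b c => by
      ext1
      · simp [mul_add]
      · simp only [Prod.fst_add, Prod.snd_add, add_smul, smul_add, mul_add]
        abel)
    (fun r a b => by
      ext1
      · simp [mul_left_comm]
      · simp only [Prod.smul_fst, Prod.smul_snd, smul_eq_mul, smul_add, mul_smul_comm, mul_smul]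
        rw [smul_comm r a.1])

/-- The morphisms of degree `n` in `uni`. -/
def homS (X Y : Bool) (n : ℤ) : Submodule k (k × (TW A)) where
  carrier := {z : k × (TW A) | z.2 ∈ G I.e n ∧ (z.1 ≠ 0 → X = true ∧ Y = true ∧ n = 0)}
  add_mem' := by
    rintro z z' ⟨h1, h2⟩ ⟨h1', h2'⟩
    refine ⟨Submodule.add_mem _ h1 h1', fun h => ?_⟩
    by_cases h0 : z.1 = 0
    · exact h2' fun h3 => h (by simp [h0, h3])
    · exact h2 h0
  zero_mem' := ⟨Submodule.zero_mem _, fun h => absurd rfl h⟩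
  smul_mem' := by
    rintro c z ⟨h1, h2⟩
    exact ⟨Submodule.smul_mem _ _ h1, fun h => h2 fun h3 => h (by simp [h3])⟩

/-- The differential in `uni`. -/
def dS (n : ℤ) : k × (TW A) →ₗ[k] k × (TW A) :=
  LinearMap.inr k k (TW A) ∘ₗ I.dW n ∘ₗ LinearMap.snd k k (TW A)

theorem dS_mem (X Y : Bool) {n m : ℤ} (h : n + 1 = m) (z : k × (TW A)) (hz : z ∈ I.homS X Y n) :
    I.dS n z ∈ I.homS X Y m :=
  ⟨I.dW_mem h hz.1, fun h => absurd rfl h⟩

/-- The identities in `uni`. -/
def oneS : Bool → k × (TW A)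
  | true => (1, 0)
  | false => (0, 1)

theorem oneS_mem (X : Bool) : oneS X ∈ I.homS X X 0 := by
  cases X
  · exact ⟨one_mem_G, fun h => absurd rfl h⟩
  · exact ⟨Submodule.zero_mem _, fun _ => ⟨rfl, rfl, rfl⟩⟩

theorem cmp_mem {X Y Z : Bool} {m n p : ℤ} (h : m + n = p) {g f : k × (TW A)}
    (hg : g ∈ I.homS Y Z m) (hf : f ∈ I.homS X Y n) : I.cmp Y g f ∈ I.homS X Z p := by
  obtain ⟨a, w⟩ := g
  obtain ⟨b, w'⟩ := f
  obtain ⟨hw, ha⟩ := hg
  obtain ⟨hw', hb⟩ := hf
  refine ⟨Submodule.add_mem _ (Submodule.add_mem _ ?_ ?_) ?_, fun h0 => ?_⟩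
  · by_cases h0 : a = 0
    · show a • w' ∈ _
      rw [h0, zero_smul]
      exact Submodule.zero_mem _
    · obtain ⟨-, -, rfl⟩ := ha h0
      obtain rfl : n = p := by omega
      exact Submodule.smul_mem _ _ hw'
  · by_cases h0 : b = 0
    · show b • w ∈ _
      rw [h0, zero_smul]
      exact Submodule.zero_mem _
    · obtain ⟨-, -, rfl⟩ := hb h0
      obtain rfl : m = p := by omega
      exact Submodule.smul_mem _ _ hw
  · exact mul_mem_G h (mul_mem_G (add_zero m) hw (I.mid_mem Y)) hw'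
  · have h1 := ha (left_ne_zero_of_mul h0)
    have h2 := hb (right_ne_zero_of_mul h0)
    exact ⟨h2.1, h1.2.1, by omega⟩

theorem dS_dS {n m : ℤ} (h : n + 1 = m) (z : k × (TW A)) : I.dS m (I.dS n z) = 0 := by
  show ((0 : k), I.dW m (I.dW n z.2)) = 0
  rw [I.dW_dW h]
  rfl

theorem cmp_apply (Y : Bool) (g f : k × (TW A)) :
    I.cmp Y g f = (g.1 * f.1, g.1 • f.2 + f.1 • g.2 + g.2 * I.mid Y * f.2) := rfl

theorem one_cmp {X Y : Bool} {n : ℤ} {f : k × (TW A)} (hf : f ∈ I.homS X Y n) :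
    I.cmp Y (oneS Y) f = f := by
  obtain ⟨a, w⟩ := f
  obtain ⟨hw, ha⟩ := hf
  rw [cmp_apply]
  cases Y
  · have h0 : a = 0 := by
      by_contra h
      exact absurd (ha h).2.1 (by simp)
    subst h0
    show ((0 : k) * 0, (0 : k) • w + (0 : k) • (1 : TW A) + 1 * 1 * w) = (0, w)
    simp
  · show ((1 : k) * a, (1 : k) • w + a • (0 : TW A) + 0 * I.mid true * w) = (a, w)
    simp

theorem cmp_one {X Y : Bool} {n : ℤ} {f : k × (TW A)} (hf : f ∈ I.homS X Y n) :
    I.cmp X f (oneS X) = f := by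
  obtain ⟨a, w⟩ := f
  obtain ⟨hw, ha⟩ := hf
  rw [cmp_apply]
  cases X
  · have h0 : a = 0 := by
      by_contra h
      exact absurd (ha h).1 (by simp)
    subst h0
    show ((0 : k) * 0, (0 : k) • (1 : TW A) + (0 : k) • w + w * 1 * 1) = (0, w)
    simp
  · show (a * (1 : k), a • (0 : TW A) + (1 : k) • w + w * I.mid true * 0) = (a, w)
    simp

theorem cmp_assoc {X Y : Bool} {n : ℤ} (x y z : k × (TW A)) (hy : y ∈ I.homS X Y n) :
    I.cmp X (I.cmp Y x y) z = I.cmp Y x (I.cmp X y z) := by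
  obtain ⟨x1, x2⟩ := x
  obtain ⟨y1, y2⟩ := y
  obtain ⟨z1, z2⟩ := z
  obtain ⟨-, hy1⟩ := hy
  have hmid : y1 • I.mid X = y1 • I.mid Y := by
    by_cases h : y1 = 0
    · rw [h, zero_smul, zero_smul]
    · obtain ⟨h1, h2, -⟩ := hy1 h
      rw [h1, h2]
  have h1 : y1 • (x2 * (I.mid X * z2)) = y1 • (x2 * (I.mid Y * z2)) := by
    rw [← mul_smul_comm, ← smul_mul_assoc, hmid, smul_mul_assoc, mul_smul_comm]
  simp only [cmp_apply]
  ext1
  · exact mul_assoc _ _ _
  · simp only [smul_add, add_mul, mul_add, smul_mul_assoc, mul_smul_comm, mul_assoc, smul_smul]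
    rw [h1, mul_comm z1 x1, mul_comm z1 y1]
    abel

theorem cmp_leibniz {X Y Z : Bool} {m n p : ℤ} (h : m + n = p) {g f : k × (TW A)}
    (hg : g ∈ I.homS Y Z m) (hf : f ∈ I.homS X Y n) :
    I.dS p (I.cmp Y g f) = I.cmp Y (I.dS m g) f + (m.negOnePow : ℤ) • I.cmp Y g (I.dS n f) := by
  obtain ⟨a, w⟩ := g
  obtain ⟨b, w'⟩ := f
  obtain ⟨hw, ha⟩ := hg
  obtain ⟨hw', hb⟩ := hf
  have h1 : I.dW p (a • w') = (m.negOnePow : ℤ) • (a • I.dW n w') := by
    by_cases h0 : a = 0
    · rw [h0, zero_smul, zero_smul, map_zero, smul_zero]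
    · obtain ⟨-, -, rfl⟩ := ha h0
      obtain rfl : n = p := by omega
      rw [map_smul]
      simp
  have h2 : I.dW p (b • w) = b • I.dW m w := by
    by_cases h0 : b = 0
    · rw [h0, zero_smul, zero_smul, map_zero]
    · obtain ⟨-, -, rfl⟩ := hb h0
      obtain rfl : m = p := by omega
      rw [map_smul]
  have h3 := I.dW_mul h w (I.mid Y) w' (I.D_mid Y)
  ext1
  · show (0 : k) = 0 * b + (m.negOnePow : ℤ) • (a * 0)
    simp
  · show I.dW p (a • w' + b • w + w * I.mid Y * w') = (0 : k) • w' + b • I.dW m w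
      + I.dW m w * I.mid Y * w' + (m.negOnePow : ℤ) • (a • I.dW n w' + (0 : k) • w
      + w * I.mid Y * I.dW n w')
    rw [map_add, map_add, h1, h2, h3, zero_smul, zero_smul, smul_add, smul_add]
    abel

/-- A dg category with two objects `true`, `false`, where `false` is a homotopy retract of
`true`, and which is mapped to `A` in such a way that the homotopy idempotent of `true` becomes
`e`. -/
def uni : DGCat k where
  Obj := Bool
  Hom X Y n := I.homS X Y n
  d {X Y n m} h := (I.dS n).restrict (I.dS_mem X Y h)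
  one X := ⟨oneS X, I.oneS_mem X⟩
  comp {X Y Z m n p} h := LinearMap.mk₂ k (fun g f => ⟨I.cmp Y g.1 f.1, I.cmp_mem h g.2 f.2⟩)
      (fun a b c => Subtype.ext (LinearMap.map_add₂ (I.cmp Y) a.1 b.1 c.1))
      (fun r a b => Subtype.ext (LinearMap.map_smul₂ (I.cmp Y) r a.1 b.1))
      (fun a b c => Subtype.ext (map_add (I.cmp Y a.1) b.1 c.1))
      (fun r a b => Subtype.ext (map_smul (I.cmp Y a.1) r b.1))
  d_d h _ f := Subtype.ext (I.dS_dS h f.1)
  one_comp f := Subtype.ext (I.one_cmp f.2)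
  comp_one f := Subtype.ext (I.cmp_one f.2)
  assoc _ _ _ _ x y z := Subtype.ext (I.cmp_assoc x.1 y.1 z.1 y.2)
  leibniz h _ _ _ _ _ g f := Subtype.ext (I.cmp_leibniz h g.2 f.2)

end HI

end Pool.Agent.Helper35.NCM
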